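import Pool.Agent.Helper79.GL4.GoalsB

/-!
# GL4, packet SP3: geometric spreads in dimension at least `3a` come from fields
-/

set_option linter.unusedVariables false

namespace Pool.Agent.Helper53.GL4sp

open Module Submodule GL4

section
variable {F : Type} [Field F] {W : Type} [AddCommGroup W] [Module F W]

structure Spread (a : ℕ) (S : W → Submodule F W) : Prop where
  dim : ∀ v, v ≠ 0 → finrank F (S v) = a
  self : ∀ v, v ≠ 0 → v ∈ S v
  eq : ∀ v w, v ≠ 0 → w ≠ 0 → w ∈ S v → S w = S v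
  geo : ∀ u v w, u ≠ 0 → v ≠ 0 → w ≠ 0 → w ∈ S u ⊔ S v → S w ≤ S u ⊔ S v

/-- spread elements -/
def Sp (S : W → Submodule F W) (U : Submodule F W) : Prop := ∃ v, v ≠ 0 ∧ U = S v

/-- unions of spread elements -/
def Cl (S : W → Submodule F W) (C : Submodule F W) : Prop := ∀ w, w ∈ C → w ≠ 0 → S w ≤ C

/-- graph -/
def gr {U : Submodule F W} (f : U →ₗ[F] W) : Submodule F W := LinearMap.range (U.subtype + f)

theorem mem_gr {U : Submodule F W} {f : U →ₗ[F] W} {w : W} :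
    w ∈ gr f ↔ ∃ u : U, (u : W) + f u = w := by
  rw [gr, LinearMap.mem_range]; rfl

/-- graph of a map between subspaces -/
abbrev g2 {U U' : Submodule F W} (φ : U →ₗ[F] U') : Submodule F W := gr (U'.subtype ∘ₗ φ)

theorem mem_g2 {U U' : Submodule F W} {φ : U →ₗ[F] U'} {w : W} :
    w ∈ g2 φ ↔ ∃ u : U, (u : W) + (φ u : W) = w := mem_gr

theorem finrank_gr {U : Submodule F W} (f : U →ₗ[F] W)
    (h : ∀ u : U, (u : W) + f u = 0 → u = 0) : finrank F (gr f) = finrank F U := by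
  apply LinearMap.finrank_range_of_inj
  rw [← LinearMap.ker_eq_bot, LinearMap.ker_eq_bot']
  intro u hu
  exact h u hu

variable {a : ℕ} {S : W → Submodule F W}

theorem Sp.dim (hS : Spread a S) {U : Submodule F W} (h : Sp S U) : finrank F U = a := by
  obtain ⟨v, hv, rfl⟩ := h; exact hS.dim v hv

theorem Sp.eq (hS : Spread a S) {U : Submodule F W} (h : Sp S U) {u : W} (hu : u ∈ U)
    (h0 : u ≠ 0) : S u = U := by
  obtain ⟨v, hv, rfl⟩ := h; exact hS.eq v u hv h0 hu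

theorem Sp.cl (hS : Spread a S) {U : Submodule F W} (h : Sp S U) : Cl S U :=
  fun w hw h0 => (h.eq hS hw h0).le

theorem Cl.inf {C C' : Submodule F W} (h : Cl S C) (h' : Cl S C') : Cl S (C ⊓ C') :=
  fun w hw h0 => le_inf (h w hw.1 h0) (h' w hw.2 h0)

theorem Cl.sup_sp (hS : Spread a S) {U C : Submodule F W} (hU : Sp S U) (hC : Cl S C) :
    Cl S (U ⊔ C) := by
  intro w hw h0
  obtain ⟨u, hu, c, hc, rfl⟩ := Submodule.mem_sup.1 hw
  by_cases hc0 : c = 0
  · subst hc0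
    rw [add_zero] at h0 ⊢
    rw [hU.eq hS hu h0]; exact le_sup_left
  · obtain ⟨v, hv, rfl⟩ := hU
    refine (hS.geo v c _ hv hc0 h0 ?_).trans (sup_le_sup le_rfl (hC c hc hc0))
    exact Submodule.add_mem_sup hu (hS.self c hc0)

theorem Sp.of_cl [FiniteDimensional F W] (hS : Spread a S) (ha : 1 ≤ a) {C : Submodule F W}
    (hC : Cl S C) (hd : finrank F C = a) : Sp S C := by
  have hne : C ≠ ⊥ := by
    rintro rfl
    rw [finrank_bot] at hd
    omega
  obtain ⟨w, hw, h0⟩ := exists_mem_ne_zero_of_ne_bot hne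
  exact ⟨w, h0, (Submodule.eq_of_le_of_finrank_eq (hC w hw h0) (by rw [hS.dim w h0, hd])).symm⟩

/-- independence -/
def Ind (U U' U'' : Submodule F W) : Prop :=
  ∀ u ∈ U, ∀ v ∈ U', ∀ w ∈ U'', u + v + w = 0 → u = 0 ∧ v = 0 ∧ w = 0

def Ind2 (U U' : Submodule F W) : Prop := ∀ u ∈ U, ∀ v ∈ U', u + v = 0 → u = 0 ∧ v = 0

theorem Ind.two {U U' U'' : Submodule F W} (h : Ind U U' U'') : Ind2 U U' := by
  intro u hu v hv h0
  have := h u hu v hv 0 (zero_mem _) (by rw [add_zero, h0])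
  exact ⟨this.1, this.2.1⟩

theorem Ind.swap12 {U U' U'' : Submodule F W} (h : Ind U U' U'') : Ind U' U U'' := by
  intro u hu v hv w hw h0
  have := h v hv u hu w hw (by rw [add_comm v u, h0])
  exact ⟨this.2.1, this.1, this.2.2⟩

theorem Ind.swap23 {U U' U'' : Submodule F W} (h : Ind U U' U'') : Ind U U'' U' := by
  intro u hu v hv w hw h0
  have := h u hu w hw v hv (by rw [← h0]; abel)
  exact ⟨this.1, this.2.2, this.2.1⟩

theorem Ind2.swap {U U' : Submodule F W} (h : Ind2 U U') : Ind2 U' U := by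
  intro u hu v hv h0
  have := h v hv u hu (by rw [add_comm v u, h0])
  exact ⟨this.2, this.1⟩

theorem Ind.eq {U U' U'' : Submodule F W} (h : Ind U U' U'') {u v w u' v' w' : W}
    (hu : u ∈ U) (hv : v ∈ U') (hw : w ∈ U'') (hu' : u' ∈ U) (hv' : v' ∈ U') (hw' : w' ∈ U'')
    (he : u + v + w = u' + v' + w') : u = u' ∧ v = v' ∧ w = w' := by
  have := h (u - u') (U.sub_mem hu hu') (v - v') (U'.sub_mem hv hv') (w - w')
    (U''.sub_mem hw hw') (by
      have : u - u' + (v - v') + (w - w') = (u + v + w) - (u' + v' + w') := by abel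
      rw [this, he, sub_self])
  exact ⟨sub_eq_zero.1 this.1, sub_eq_zero.1 this.2.1, sub_eq_zero.1 this.2.2⟩

theorem Ind2.eq {U U' : Submodule F W} (h : Ind2 U U') {u v u' v' : W}
    (hu : u ∈ U) (hv : v ∈ U') (hu' : u' ∈ U) (hv' : v' ∈ U')
    (he : u + v = u' + v') : u = u' ∧ v = v' := by
  have := h (u - u') (U.sub_mem hu hu') (v - v') (U'.sub_mem hv hv') (by
      have : u - u' + (v - v') = (u + v) - (u' + v') := by abel
      rw [this, he, sub_self])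
  exact ⟨sub_eq_zero.1 this.1, sub_eq_zero.1 this.2⟩

theorem g2_finrank {U U' : Submodule F W} (h : Ind2 U U') (φ : U →ₗ[F] U') :
    finrank F (g2 φ) = finrank F U := by
  apply finrank_gr
  intro u hu
  exact Subtype.ext (h u u.2 (φ u) (φ u).2 hu).1

theorem g2_zero {U U' : Submodule F W} : g2 (0 : U →ₗ[F] U') = U := by
  ext w
  rw [mem_g2]
  constructor
  · rintro ⟨u, rfl⟩; simp
  · intro hw; exact ⟨⟨w, hw⟩, by simp⟩

theorem g2_symm {U U' : Submodule F W} (φ : U ≃ₗ[F] U') :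
    g2 (φ.symm : U' →ₗ[F] U) = g2 (φ : U →ₗ[F] U') := by
  ext w
  rw [mem_g2, mem_g2]
  constructor
  · rintro ⟨u, rfl⟩
    refine ⟨φ.symm u, ?_⟩
    simp [add_comm]
  · rintro ⟨u, rfl⟩
    refine ⟨φ u, ?_⟩
    simp [add_comm]

theorem g2_inj {U U' : Submodule F W} (h : Ind2 U U') {φ φ' : U →ₗ[F] U'} (he : g2 φ = g2 φ') :
    φ = φ' := by
  ext u
  have h1 : (u : W) + (φ u : W) ∈ g2 φ' := by rw [← he]; exact mem_g2.2 ⟨u, rfl⟩
  obtain ⟨u', hu'⟩ := mem_g2.1 h1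
  obtain ⟨h2, h3⟩ := h.eq u'.2 (φ' u').2 u.2 (φ u).2 hu'
  have h4 : u' = u := Subtype.ext h2
  rw [← h3, h4]

/-- uniqueness -/
theorem uniq (hS : Spread a S) {U U' : Submodule F W} (h : Ind2 U U') {φ φ' : U →ₗ[F] U'}
    (hφ : Sp S (g2 φ)) (hφ' : Sp S (g2 φ')) {u : U} (hu : u ≠ 0) (he : φ u = φ' u) : φ = φ' := by
  apply g2_inj h
  have h0 : (u : W) + (φ u : W) ≠ 0 := by
    intro h0
    exact hu (Subtype.ext (h u u.2 (φ u) (φ u).2 h0).1)
  have h1 := hφ.eq hS (mem_g2.2 ⟨u, rfl⟩) h0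
  have h2 : (u : W) + (φ u : W) ∈ g2 φ' := by rw [he]; exact mem_g2.2 ⟨u, rfl⟩
  rw [← h1, hφ'.eq hS h2 h0]

theorem inj_of_ne (hS : Spread a S) {U U' : Submodule F W} (h : Ind2 U U') (hU : Sp S U)
    {φ : U →ₗ[F] U'} (hφ : Sp S (g2 φ)) (h0 : φ ≠ 0) : Function.Injective φ := by
  rw [← LinearMap.ker_eq_bot, LinearMap.ker_eq_bot']
  intro u hu
  by_contra hu0
  apply h0
  exact uniq hS h hφ (by rw [g2_zero]; exact hU) hu0 (by rw [hu]; rfl)

/-- construction of linear maps from graphs -/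
theorem exists_map {U U' T : Submodule F W} (h1 : ∀ u ∈ U, ∃ v ∈ U', u + v ∈ T)
    (h2 : ∀ v ∈ U', v ∈ T → v = 0) : ∃ φ : U →ₗ[F] U', ∀ u : U, (u : W) + (φ u : W) ∈ T := by
  choose! f hf1 hf2 using h1
  have key : ∀ u ∈ U, ∀ v ∈ U', u + v ∈ T → v = f u := by
    intro u hu v hv hT
    have h3 : v - f u ∈ T := by
      have := T.sub_mem hT (hf2 u hu)
      have e : u + v - (u + f u) = v - f u := by abel
      rwa [e] at this
    exact sub_eq_zero.1 (h2 _ (U'.sub_mem hv (hf1 u hu)) h3)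
  refine ⟨{ toFun := fun u => ⟨f u, hf1 u u.2⟩, map_add' := ?_, map_smul' := ?_ }, ?_⟩
  · intro u v
    apply Subtype.ext
    change f ((u : W) + v) = f u + f v
    symm
    apply key _ (U.add_mem u.2 v.2) _ (U'.add_mem (hf1 u u.2) (hf1 v v.2))
    have := T.add_mem (hf2 u u.2) (hf2 v v.2)
    have e : (u : W) + v + (f u + f v) = (u : W) + f u + (v + f v) := by abel
    rwa [e]
  · intro c u
    apply Subtype.ext
    change f (c • (u : W)) = c • f u
    symm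
    apply key _ (U.smul_mem c u.2) _ (U'.smul_mem c (hf1 u u.2))
    rw [← smul_add]
    exact T.smul_mem c (hf2 u u.2)
  · intro u
    exact hf2 u u.2

section fd
variable [FiniteDimensional F W]

/-- existence -/
theorem exi (hS : Spread a S) {U U' : Submodule F W} (h : Ind2 U U') (hU : Sp S U)
    (hU' : Sp S U') {u : U} (hu : u ≠ 0) (v : U') :
    ∃ φ : U →ₗ[F] U', Sp S (g2 φ) ∧ φ u = v := by
  have hw0 : (u : W) + v ≠ 0 := fun h0 => hu (Subtype.ext (h u u.2 v v.2 h0).1)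
  have hT : Sp S (S ((u : W) + v)) := ⟨_, hw0, rfl⟩
  have hTle : S ((u : W) + v) ≤ U ⊔ U' :=
    Cl.sup_sp hS hU (hU'.cl hS) _ (Submodule.add_mem_sup u.2 v.2) hw0
  have hself : (u : W) + v ∈ S ((u : W) + v) := hS.self _ hw0
  have h2 : ∀ v' ∈ U', v' ∈ S ((u : W) + v) → v' = 0 := by
    intro v' hv' hv'T
    by_contra h0
    have e : S ((u : W) + v) = U' := by rw [← hT.eq hS hv'T h0, hU'.eq hS hv' h0]
    rw [e] at hself
    have h3 : (u : W) ∈ U' := by
      have := U'.sub_mem hself v.2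
      rwa [add_sub_cancel_right] at this
    have := h u u.2 (-u) (U'.neg_mem h3) (add_neg_cancel _)
    exact hu (Subtype.ext this.1)
  have hinf : S ((u : W) + v) ⊓ U' = ⊥ := by
    rw [eq_bot_iff]
    rintro z ⟨h3, h4⟩
    rw [Submodule.mem_bot]
    exact h2 z h4 h3
  have hinf2 : U ⊓ U' = ⊥ := by
    rw [eq_bot_iff]
    rintro z ⟨h3, h4⟩
    rw [Submodule.mem_bot]
    exact (h z h3 (-z) (U'.neg_mem h4) (add_neg_cancel _)).1
  have hsup : S ((u : W) + v) ⊔ U' = U ⊔ U' := by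
    apply Submodule.eq_of_le_of_finrank_eq (sup_le hTle le_sup_right)
    have e1 := Submodule.finrank_sup_add_finrank_inf_eq (S ((u : W) + v)) U'
    have e2 := Submodule.finrank_sup_add_finrank_inf_eq U U'
    rw [hinf, finrank_bot, hT.dim hS] at e1
    rw [hinf2, finrank_bot, hU.dim hS] at e2
    omega
  have h1 : ∀ u' ∈ U, ∃ v' ∈ U', u' + v' ∈ S ((u : W) + v) := by
    intro u' hu'
    have : u' ∈ S ((u : W) + v) ⊔ U' := by rw [hsup]; exact Submodule.mem_sup_left hu'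
    obtain ⟨t, ht, v', hv', e⟩ := Submodule.mem_sup.1 this
    refine ⟨-v', U'.neg_mem hv', ?_⟩
    rw [← e, add_neg_cancel_right]; exact ht
  obtain ⟨φ, hφ⟩ := exists_map h1 h2
  have hg : g2 φ = S ((u : W) + v) := by
    apply Submodule.eq_of_le_of_finrank_eq
    · intro z hz
      obtain ⟨u', rfl⟩ := mem_g2.1 hz
      exact hφ u'
    · rw [g2_finrank h, hT.dim hS, hU.dim hS]
  refine ⟨φ, by rw [hg]; exact hT, ?_⟩
  have h3 := (S ((u : W) + v)).sub_mem (hφ u) hself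
  have e : (u : W) + (φ u : W) - ((u : W) + v) = (φ u : W) - v := by abel
  rw [e] at h3
  exact Subtype.ext (sub_eq_zero.1 (h2 _ (U'.sub_mem (φ u).2 v.2) h3))

/-- composition -/
theorem comp (hS : Spread a S) (ha : 1 ≤ a) {U U' U'' : Submodule F W} (h : Ind U U' U'')
    (hU : Sp S U) (hU' : Sp S U') (hU'' : Sp S U'') {φ : U →ₗ[F] U'} {ψ : U' →ₗ[F] U''}
    (hφ : Sp S (g2 φ)) (hψ : Sp S (g2 ψ)) : Sp S (g2 (ψ ∘ₗ φ)) := by
  -- the diagonal spread element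
  have hG : Sp S (gr (U'.subtype ∘ₗ φ + U''.subtype ∘ₗ ψ ∘ₗ φ)) := by
    apply Sp.of_cl hS ha
    · have e : gr (U'.subtype ∘ₗ φ + U''.subtype ∘ₗ ψ ∘ₗ φ) = (g2 φ ⊔ U'') ⊓ (U ⊔ g2 ψ) := by
        ext w
        rw [mem_gr]
        constructor
        · rintro ⟨u, rfl⟩
          constructor
          · exact Submodule.mem_sup.2 ⟨(u : W) + (φ u : W), mem_g2.2 ⟨u, rfl⟩, (ψ (φ u) : W),
              (ψ (φ u)).2, by simp [add_assoc]⟩
          · exact Submodule.mem_sup.2 ⟨(u : W), u.2, (φ u : W) + (ψ (φ u) : W),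
              mem_g2.2 ⟨φ u, rfl⟩, by simp⟩
        · rintro ⟨h1, h2⟩
          obtain ⟨y, hy, z, hz, e1⟩ := Submodule.mem_sup.1 h1
          obtain ⟨u, rfl⟩ := mem_g2.1 hy
          obtain ⟨u', hu', y', hy', e2⟩ := Submodule.mem_sup.1 h2
          obtain ⟨v, rfl⟩ := mem_g2.1 hy'
          have := h.eq u.2 (φ u).2 hz hu' v.2 (ψ v).2 (by rw [e1, ← e2]; abel)
          refine ⟨u, ?_⟩
          have h3 : φ u = v := Subtype.ext this.2.1
          rw [← e1, this.2.2, ← h3]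
          simp [add_assoc]
      rw [e]
      refine Cl.inf ?_ ?_
      · exact Cl.sup_sp hS hφ (hU''.cl hS)
      · exact Cl.sup_sp hS hU (hψ.cl hS)
    · rw [finrank_gr, hU.dim hS]
      intro u hu
      have := h u u.2 (φ u) (φ u).2 (ψ (φ u)) (ψ (φ u)).2 (by
        rw [← hu]; simp [add_assoc])
      exact Subtype.ext this.1
  apply Sp.of_cl hS ha
  · have e : g2 (ψ ∘ₗ φ) = (gr (U'.subtype ∘ₗ φ + U''.subtype ∘ₗ ψ ∘ₗ φ) ⊔ U') ⊓ (U ⊔ U'') := by
      ext w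
      rw [mem_g2]
      constructor
      · rintro ⟨u, rfl⟩
        constructor
        · exact Submodule.mem_sup.2 ⟨_, mem_gr.2 ⟨u, rfl⟩, -(φ u : W), U'.neg_mem (φ u).2, by
            simp only [LinearMap.add_apply, LinearMap.comp_apply, Submodule.subtype_apply]; abel⟩
        · exact Submodule.add_mem_sup u.2 (ψ (φ u)).2
      · rintro ⟨h1, h2⟩
        obtain ⟨y, hy, z, hz, e1⟩ := Submodule.mem_sup.1 h1
        obtain ⟨u, rfl⟩ := mem_gr.1 hy
        obtain ⟨u', hu', w', hw', e2⟩ := Submodule.mem_sup.1 h2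
        have := h.eq u.2 (U'.add_mem (φ u).2 hz) (ψ (φ u)).2 hu' (zero_mem _) hw' (by
          rw [add_zero, e2, ← e1]
          simp only [LinearMap.add_apply, LinearMap.comp_apply, Submodule.subtype_apply]; abel)
        refine ⟨u, ?_⟩
        rw [← e2, ← this.1, ← this.2.2]; rfl
    rw [e]
    refine Cl.inf ?_ ?_
    · exact Cl.sup_sp hS hG (hU'.cl hS)
    · exact Cl.sup_sp hS hU (hU''.cl hS)
  · rw [g2_finrank h.swap23.two, hU.dim hS]

/-- addition -/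
theorem addS (hS : Spread a S) (ha : 1 ≤ a) {U U' U'' : Submodule F W} (h : Ind U U' U'')
    (hU : Sp S U) (hU' : Sp S U') (hU'' : Sp S U'') {φ φ' : U →ₗ[F] U'} {ψ : U ≃ₗ[F] U''}
    (hφ : Sp S (g2 φ)) (hφ' : Sp S (g2 φ')) (hψ : Sp S (g2 (ψ : U →ₗ[F] U''))) :
    Sp S (g2 (φ + φ')) := by
  have hψ' : Sp S (g2 (ψ.symm : U'' →ₗ[F] U)) := by rw [g2_symm]; exact hψ
  have hχ : Sp S (g2 (φ' ∘ₗ (ψ.symm : U'' →ₗ[F] U))) :=
    comp hS ha (h.swap23.swap12) hU'' hU hU' hψ' hφ'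
  have hG : Sp S (gr (U'.subtype ∘ₗ (φ + φ') + U''.subtype ∘ₗ (ψ : U →ₗ[F] U''))) := by
    apply Sp.of_cl hS ha
    · have e : gr (U'.subtype ∘ₗ (φ + φ') + U''.subtype ∘ₗ (ψ : U →ₗ[F] U''))
          = (g2 φ ⊔ g2 (φ' ∘ₗ (ψ.symm : U'' →ₗ[F] U))) ⊓ (g2 (ψ : U →ₗ[F] U'') ⊔ U') := by
        ext w
        rw [mem_gr]
        constructor
        · rintro ⟨u, rfl⟩
          constructor
          · refine Submodule.mem_sup.2 ⟨(u : W) + (φ u : W), mem_g2.2 ⟨u, rfl⟩,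
              (ψ u : W) + (φ' u : W), mem_g2.2 ⟨ψ u, by simp⟩, ?_⟩
            simp only [LinearMap.add_apply, LinearMap.comp_apply, Submodule.subtype_apply,
              Submodule.coe_add, LinearEquiv.coe_coe]
            abel
          · refine Submodule.mem_sup.2 ⟨(u : W) + (ψ u : W), mem_g2.2 ⟨u, rfl⟩,
              ((φ u + φ' u : U') : W), (φ u + φ' u).2, ?_⟩
            simp only [LinearMap.add_apply, LinearMap.comp_apply, Submodule.subtype_apply,
              Submodule.coe_add, LinearEquiv.coe_coe]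
            abel
        · rintro ⟨h1, h2⟩
          obtain ⟨y, hy, z, hz, e1⟩ := Submodule.mem_sup.1 h1
          obtain ⟨u, rfl⟩ := mem_g2.1 hy
          obtain ⟨t, rfl⟩ := mem_g2.1 hz
          obtain ⟨y', hy', v', hv', e2⟩ := Submodule.mem_sup.1 h2
          obtain ⟨u1, rfl⟩ := mem_g2.1 hy'
          have := h.eq u.2 (U'.add_mem (φ u).2 ((φ' ∘ₗ (ψ.symm : U'' →ₗ[F] U)) t).2) t.2
            u1.2 hv' (ψ u1).2 (by
              have e3 : (u : W) + (φ u : W) + ((t : W) + ((φ' ∘ₗ (ψ.symm : U'' →ₗ[F] U)) t : W))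
                = u1 + v' + (ψ u1 : W) := by
                rw [e1, ← e2]
                simp only [LinearEquiv.coe_coe]
                abel
              rw [← e3]; abel)
          have hu : u = u1 := Subtype.ext this.1
          have ht : t = ψ u1 := Subtype.ext this.2.2
          refine ⟨u, ?_⟩
          rw [← e1, ht, hu]
          simp only [LinearMap.add_apply, LinearMap.comp_apply, Submodule.subtype_apply,
            Submodule.coe_add, LinearEquiv.coe_coe, LinearEquiv.symm_apply_apply]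
          abel
      rw [e]
      refine Cl.inf ?_ ?_
      · exact Cl.sup_sp hS hφ (hχ.cl hS)
      · exact Cl.sup_sp hS hψ (hU'.cl hS)
    · rw [finrank_gr, hU.dim hS]
      intro u hu
      have := h u u.2 (φ u + φ' u : U') (φ u + φ' u : U').2 (ψ u) (ψ u).2 (by
        rw [← hu]
        simp only [LinearMap.add_apply, LinearMap.comp_apply, Submodule.subtype_apply,
            Submodule.coe_add, LinearEquiv.coe_coe]
        abel)
      exact Subtype.ext this.1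
  apply Sp.of_cl hS ha
  · have e : g2 (φ + φ') = (gr (U'.subtype ∘ₗ (φ + φ') + U''.subtype ∘ₗ (ψ : U →ₗ[F] U'')) ⊔ U'') ⊓
        (U ⊔ U') := by
      ext w
      rw [mem_g2]
      constructor
      · rintro ⟨u, rfl⟩
        constructor
        · exact Submodule.mem_sup.2 ⟨_, mem_gr.2 ⟨u, rfl⟩, -(ψ u : W), U''.neg_mem (ψ u).2, by
            simp only [LinearMap.add_apply, LinearMap.comp_apply, Submodule.subtype_apply,
              Submodule.coe_add, LinearEquiv.coe_coe]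
            abel⟩
        · exact Submodule.add_mem_sup u.2 ((φ + φ') u).2
      · rintro ⟨h1, h2⟩
        obtain ⟨y, hy, z, hz, e1⟩ := Submodule.mem_sup.1 h1
        obtain ⟨u, rfl⟩ := mem_gr.1 hy
        obtain ⟨u', hu', v', hv', e2⟩ := Submodule.mem_sup.1 h2
        have := h.eq u.2 ((φ + φ') u).2 (U''.add_mem (ψ u).2 hz) hu' hv' (zero_mem _) (by
          rw [add_zero, e2, ← e1]
          simp only [LinearMap.add_apply, LinearMap.comp_apply, Submodule.subtype_apply,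
            LinearEquiv.coe_coe]
          abel)
        refine ⟨u, ?_⟩
        rw [← e2, ← this.1, ← this.2.1]
    rw [e]
    refine Cl.inf ?_ ?_
    · exact Cl.sup_sp hS hG (hU''.cl hS)
    · exact Cl.sup_sp hS hU (hU'.cl hS)
  · rw [g2_finrank h.two, hU.dim hS]

/-- bijectivity -/
theorem exists_equiv (hS : Spread a S) {U U' : Submodule F W} (h : Ind2 U U') (hU : Sp S U)
    (hU' : Sp S U') {φ : U →ₗ[F] U'} (hφ : Sp S (g2 φ)) (h0 : φ ≠ 0) :
    ∃ e : U ≃ₗ[F] U', (e : U →ₗ[F] U') = φ := by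
  refine ⟨LinearEquiv.ofBijective φ ⟨inj_of_ne hS h hU hφ h0, ?_⟩, ?_⟩
  · rw [← LinearMap.injective_iff_surjective_of_finrank_eq_finrank (by
      rw [hU.dim hS, hU'.dim hS])]
    exact inj_of_ne hS h hU hφ h0
  · ext u; rfl

theorem core [Finite F] (hS : Spread a S) (ha : 1 ≤ a) {U U' U'' : Submodule F W}
    (h : Ind U U' U'') (hU : Sp S U) (hU' : Sp S U') (hU'' : Sp S U'') :
    ∃ (Th : Subalgebra F (Module.End F U)) (φ₀ : U ≃ₗ[F] U'),
        finrank F Th = a ∧ (∀ s ∈ Th, ∀ t ∈ Th, s * t = t * s) ∧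
        (∀ t ∈ Th, t ≠ 0 → ∃ s ∈ Th, s * t = 1) ∧
        (∀ t ∈ Th, Sp S (g2 ((φ₀ : U →ₗ[F] U') ∘ₗ t))) ∧
        (∀ u v : U, u ≠ 0 → ∃ t ∈ Th, t u = v) := by
  -- a nonzero vector
  have hnt : ∀ T : Submodule F W, Sp S T → ∃ u : T, u ≠ 0 := by
    intro T hT
    have h1 := hT.dim hS
    have : Nontrivial T := by
      rw [← Module.finrank_pos_iff (R := F), h1]; omega
    exact exists_ne 0
  obtain ⟨u0, hu0⟩ := hnt U hU
  obtain ⟨u0', hu0'⟩ := hnt U' hU'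
  obtain ⟨u0'', hu0''⟩ := hnt U'' hU''
  have h12 : Ind2 U U' := h.two
  have h13 : Ind2 U U'' := h.swap23.two
  obtain ⟨φ₁, hφ₁, hφ₁u⟩ := exi hS h12 hU hU' hu0 u0'
  obtain ⟨φ₀, rfl⟩ := exists_equiv hS h12 hU hU' hφ₁ (by
    rintro rfl; exact hu0' (by rw [← hφ₁u]; rfl))
  obtain ⟨ψ₁, hψ₁, hψ₁u⟩ := exi hS h13 hU hU'' hu0 u0''
  obtain ⟨ψ₀, rfl⟩ := exists_equiv hS h13 hU hU'' hψ₁ (by
    rintro rfl; exact hu0'' (by rw [← hψ₁u]; rfl))
  have hφs : Sp S (g2 (φ₀.symm : U' →ₗ[F] U)) := by rw [g2_symm]; exact hφ₁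
  have hψs : Sp S (g2 (ψ₀.symm : U'' →ₗ[F] U)) := by rw [g2_symm]; exact hψ₁
  -- the multiplicative rule
  have hmul : ∀ s t : Module.End F U, Sp S (g2 ((φ₀ : U →ₗ[F] U') ∘ₗ s)) →
      Sp S (g2 ((φ₀ : U →ₗ[F] U') ∘ₗ t)) → Sp S (g2 ((φ₀ : U →ₗ[F] U') ∘ₗ (s * t))) := by
    intro s t hs ht
    -- 2 → 1 → 3
    have h1 : Sp S (g2 ((ψ₀ : U →ₗ[F] U'') ∘ₗ (φ₀.symm : U' →ₗ[F] U))) :=
      comp hS ha h.swap12 hU' hU hU'' hφs hψ₁
    -- 1 → 2 → 3
    have h2 : Sp S (g2 (((ψ₀ : U →ₗ[F] U'') ∘ₗ (φ₀.symm : U' →ₗ[F] U)) ∘ₗ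
        ((φ₀ : U →ₗ[F] U') ∘ₗ t))) := comp hS ha h hU hU' hU'' ht h1
    -- 3 → 1 → 2
    have h3 : Sp S (g2 (((φ₀ : U →ₗ[F] U') ∘ₗ s) ∘ₗ (ψ₀.symm : U'' →ₗ[F] U))) :=
      comp hS ha h.swap23.swap12 hU'' hU hU' hψs hs
    have h4 := comp hS ha h.swap23 hU hU'' hU' h2 h3
    have e : (((φ₀ : U →ₗ[F] U') ∘ₗ s) ∘ₗ (ψ₀.symm : U'' →ₗ[F] U)) ∘ₗ
        (((ψ₀ : U →ₗ[F] U'') ∘ₗ (φ₀.symm : U' →ₗ[F] U)) ∘ₗ ((φ₀ : U →ₗ[F] U') ∘ₗ t))
        = (φ₀ : U →ₗ[F] U') ∘ₗ (s * t) := by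
      ext u
      simp
    rw [e] at h4
    exact h4
  have hadd : ∀ s t : Module.End F U, Sp S (g2 ((φ₀ : U →ₗ[F] U') ∘ₗ s)) →
      Sp S (g2 ((φ₀ : U →ₗ[F] U') ∘ₗ t)) → Sp S (g2 ((φ₀ : U →ₗ[F] U') ∘ₗ (s + t))) := by
    intro s t hs ht
    rw [LinearMap.comp_add]
    exact addS hS ha h hU hU' hU'' hs ht hψ₁
  have hone : Sp S (g2 ((φ₀ : U →ₗ[F] U') ∘ₗ (1 : Module.End F U))) := hφ₁
  have hzero : Sp S (g2 ((φ₀ : U →ₗ[F] U') ∘ₗ (0 : Module.End F U))) := by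
    rw [LinearMap.comp_zero, g2_zero]; exact hU
  have hfin : Finite (Module.End F U) := by
    have : Finite U := Module.finite_of_finite F
    exact Finite.of_injective (fun g : Module.End F U => (g : U → U)) DFunLike.coe_injective
  have htr : ∀ u v : U, u ≠ 0 → ∃ t : Module.End F U, Sp S (g2 ((φ₀ : U →ₗ[F] U') ∘ₗ t)) ∧
      t u = v := by
    intro u v hu
    obtain ⟨φ, hφ, hφu⟩ := exi hS h12 hU hU' hu (φ₀ v)
    refine ⟨(φ₀.symm : U' →ₗ[F] U) ∘ₗ φ, ?_, ?_⟩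
    · have e : (φ₀ : U →ₗ[F] U') ∘ₗ (φ₀.symm : U' →ₗ[F] U) ∘ₗ φ = φ := by
        ext u; simp
      rw [e]; exact hφ
    · simp [hφu]
  have hun : ∀ s t : Module.End F U, Sp S (g2 ((φ₀ : U →ₗ[F] U') ∘ₗ s)) →
      Sp S (g2 ((φ₀ : U →ₗ[F] U') ∘ₗ t)) → ∀ u : U, u ≠ 0 → s u = t u → s = t := by
    intro s t hs ht u hu he
    have := uniq hS h12 hs ht hu (by simp [he])
    ext v
    have h1 := congrArg (fun f : U →ₗ[F] U' => φ₀.symm (f v)) this
    simp only [LinearMap.comp_apply, LinearEquiv.coe_coe, LinearEquiv.symm_apply_apply] at h1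
    rw [h1]
  -- the ring
  let M : Submonoid (Module.End F U) :=
    { carrier := {t | Sp S (g2 ((φ₀ : U →ₗ[F] U') ∘ₗ t))}
      one_mem' := hone
      mul_mem' := fun {s t} hs ht => hmul s t hs ht }
  have hneg : ∀ t : Module.End F U, Sp S (g2 ((φ₀ : U →ₗ[F] U') ∘ₗ t)) →
      Sp S (g2 ((φ₀ : U →ₗ[F] U') ∘ₗ (-t))) := by
    intro t ht
    obtain ⟨s, hs, hsu⟩ := htr u0 (-(t u0)) hu0
    have h1 : s + t = 0 := hun _ _ (hadd s t hs ht) hzero u0 hu0 (by
      rw [LinearMap.add_apply, hsu]; simp)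
    have h2 : -t = s := by rw [eq_comm]; exact eq_neg_of_add_eq_zero_left h1
    rw [h2]; exact hs
  let R : Subring (Module.End F U) :=
    { carrier := {t | Sp S (g2 ((φ₀ : U →ₗ[F] U') ∘ₗ t))}
      one_mem' := hone
      mul_mem' := fun {s t} hs ht => hmul s t hs ht
      zero_mem' := hzero
      add_mem' := fun {s t} hs ht => hadd s t hs ht
      neg_mem' := fun {t} ht => hneg t ht }
  have hRmem : ∀ t, t ∈ R ↔ Sp S (g2 ((φ₀ : U →ₗ[F] U') ∘ₗ t)) := fun t => Iff.rfl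
  have hnzd : ∀ s t : Module.End F U, s ∈ R → t ∈ R → s * t = 0 → s = 0 ∨ t = 0 := by
    intro s t hs ht hst
    by_cases ht0 : t u0 = 0
    · right
      exact hun t 0 ht hzero u0 hu0 (by rw [ht0]; rfl)
    · left
      refine hun s 0 hs hzero (t u0) ht0 ?_
      have := congrArg (fun f : Module.End F U => f u0) hst
      simpa using this
  have : Nontrivial R := ⟨⟨0, 1, fun h0 => hu0 (by
    have := congrArg (fun f : R => (f : Module.End F U) u0) h0
    simpa using this.symm)⟩⟩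
  have : NoZeroDivisors R := ⟨fun {s t} hst => by
    rcases hnzd s t s.2 t.2 (congrArg Subtype.val hst) with h1 | h1
    · exact Or.inl (Subtype.ext h1)
    · exact Or.inr (Subtype.ext h1)⟩
  have : IsDomain R := NoZeroDivisors.to_isDomain R
  have : Finite R := inferInstance
  have hfield : IsField R := Finite.isDomain_to_isField R
  have hcomm : ∀ s ∈ R, ∀ t ∈ R, s * t = t * s := by
    intro s hs t ht
    exact congrArg Subtype.val (hfield.mul_comm ⟨s, hs⟩ ⟨t, ht⟩)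
  have hsc : ∀ c : F, algebraMap F (Module.End F U) c ∈ R := by
    intro c
    obtain ⟨t, ht, htu⟩ := htr u0 (c • u0) hu0
    have e : t = algebraMap F (Module.End F U) c := by
      ext v
      obtain ⟨s, hs, hsu⟩ := htr u0 v hu0
      have h1 : t v = s (t u0) := by
        rw [← hsu]
        have := congrArg (fun f : Module.End F U => f u0) (hcomm t ht s hs)
        simpa using this
      rw [h1, htu, map_smul, hsu]
      rfl
    rw [← e]; exact ht
  let Th : Subalgebra F (Module.End F U) :=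
    { R.toSubsemiring with algebraMap_mem' := hsc }
  have hThmem : ∀ t, t ∈ Th ↔ t ∈ R := fun t => Iff.rfl
  refine ⟨Th, φ₀, ?_, fun s hs t ht => hcomm s hs t ht, ?_, fun t ht => ht, ?_⟩
  · -- dimension
    let ev : Th →ₗ[F] U :=
      { toFun := fun t => (t : Module.End F U) u0
        map_add' := fun s t => rfl
        map_smul' := fun c t => rfl }
    have hbij : Function.Bijective ev := by
      constructor
      · intro s t hst
        exact Subtype.ext (hun s t s.2 t.2 u0 hu0 hst)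
      · intro v
        obtain ⟨t, ht, htu⟩ := htr u0 v hu0
        exact ⟨⟨t, ht⟩, htu⟩
    rw [(LinearEquiv.ofBijective ev hbij).finrank_eq, hU.dim hS]
  · intro t ht ht0
    obtain ⟨b, hb⟩ := hfield.mul_inv_cancel (a := (⟨t, ht⟩ : R)) (fun h0 => ht0 (congrArg Subtype.val h0))
    refine ⟨b, b.2, ?_⟩
    rw [hcomm b b.2 t ht]
    exact congrArg Subtype.val hb
  · intro u v hu
    obtain ⟨t, ht, htu⟩ := htr u v hu
    exact ⟨t, ht, htu⟩

end fd

end

theorem sp3 : GL4.SP3 := by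
  intro F _ _ W _ _ _ a N ha hdim hN1 hN2 hN3 hN4 x y hx hy hxy
  obtain ⟨v1, hv1, rfl⟩ := hx.exists_span
  obtain ⟨v2, hv2, rfl⟩ := hy.exists_span
  have hS : Spread a (fun v : W => N (F ∙ v)) :=
    { dim := fun v hv => hN1 _ (pt_span hv)
      self := fun v hv => hN2 _ (pt_span hv) (mem_span_singleton_self v)
      eq := fun v w hv hw h => hN3 _ _ (pt_span hv) (pt_span hw)
        (by rw [span_singleton_le_iff_mem]; exact h)
      geo := fun u v w hu hv hw h => hN4 _ _ _ (pt_span hu) (pt_span hv) (pt_span hw)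
        (by rw [span_singleton_le_iff_mem]; exact h) }
  have hU : Sp (fun v : W => N (F ∙ v)) (N (F ∙ v1)) := ⟨v1, hv1, rfl⟩
  have hU' : Sp (fun v : W => N (F ∙ v)) (N (F ∙ v2)) := ⟨v2, hv2, rfl⟩
  have h12 : ∀ z, z ∈ N (F ∙ v1) → z ∈ N (F ∙ v2) → z = 0 := by
    intro z h1 h2
    by_contra h0
    exact hxy ((hU.eq hS h1 h0).symm.trans (hU'.eq hS h2 h0))
  obtain ⟨v3, hv3⟩ : ∃ z, z ∉ N (F ∙ v1) ⊔ N (F ∙ v2) := by
    by_contra hc
    push Not at hc
    have e : N (F ∙ v1) ⊔ N (F ∙ v2) = ⊤ := eq_top_iff.2 fun z _ => hc z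
    have h1 := Submodule.finrank_add_le_finrank_add_finrank (N (F ∙ v1)) (N (F ∙ v2))
    rw [e, finrank_top, hU.dim hS, hU'.dim hS] at h1
    omega
  have hv30 : v3 ≠ 0 := by rintro rfl; exact hv3 (zero_mem _)
  have hU'' : Sp (fun v : W => N (F ∙ v)) (N (F ∙ v3)) := ⟨v3, hv30, rfl⟩
  have h3 : ∀ z, z ∈ N (F ∙ v1) ⊔ N (F ∙ v2) → z ∈ N (F ∙ v3) → z = 0 := by
    intro z h1 h2
    by_contra h0
    have h4 : N (F ∙ z) ≤ N (F ∙ v1) ⊔ N (F ∙ v2) :=
      Cl.sup_sp hS hU (hU'.cl hS) z h1 h0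
    have h5 : N (F ∙ z) = N (F ∙ v3) := hU''.eq hS h2 h0
    rw [h5] at h4
    exact hv3 (h4 (hS.self v3 hv30))
  have hI : Ind (N (F ∙ v1)) (N (F ∙ v2)) (N (F ∙ v3)) := by
    intro u hu v hv w hw h0
    have h4 : w = 0 := by
      have h5 : w = -(u + v) := by rw [eq_comm]; exact neg_eq_of_add_eq_zero_right h0
      apply h3 w _ hw
      rw [h5]
      exact neg_mem (Submodule.add_mem_sup hu hv)
    subst h4
    rw [add_zero] at h0
    have h6 : u = 0 := by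
      apply h12 u hu
      have h5 : u = -v := eq_neg_of_add_eq_zero_left h0
      rw [h5]; exact neg_mem hv
    subst h6
    rw [zero_add] at h0
    exact ⟨rfl, h0, rfl⟩
  obtain ⟨Th, φ₀, h4, h5, h6, h7, h8⟩ := core hS ha hI hU hU' hU''
  refine ⟨Th, φ₀, h4, h5, h6, fun t ht _ => ?_, h8⟩
  intro u hu w
  have h9 := h7 t ht
  have h0 : (u : W) + (((φ₀ : N (F ∙ v1) →ₗ[F] N (F ∙ v2)) ∘ₗ t) u : W) ≠ 0 := by
    intro h0
    exact hu (Subtype.ext (hI.two _ u.2 _ (((φ₀ : N (F ∙ v1) →ₗ[F] N (F ∙ v2)) ∘ₗ t) u).2 h0).1)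
  have h10 := h9.eq hS (mem_g2.2 ⟨u, rfl⟩) h0
  have h11 : w ∈ N (F ∙ ((u : W) + (((φ₀ : N (F ∙ v1) →ₗ[F] N (F ∙ v2)) ∘ₗ t) u : W))) ↔
      w ∈ g2 ((φ₀ : N (F ∙ v1) →ₗ[F] N (F ∙ v2)) ∘ₗ t) := by
    rw [← h10]
  rw [h11, mem_g2]
  constructor
  · rintro ⟨u', rfl⟩; exact ⟨u', rfl⟩
  · rintro ⟨u', rfl⟩; exact ⟨u', rfl⟩

end Pool.Agent.Helper53.GL4sp
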